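import Pool.Agent.W809.JS.Stm
import Pool.Agent.Helper540.Holo

set_option autoImplicit false

open MeasureTheory Filter Topology Set Metric Real
open Pool.Agent.Results.MP_5c297c_an.NotJessen
open Pool.Agent.W809.JS

namespace Pool.Agent.W356.JS

theorem cpt_zero_mem {n : ℕ} {E : Set (Fin n → ℝ)} {z : Fin n → ℂ} (hz : z ∈ tube E)
    (h : Fin n → ℝ) : z + cpt h 0 ∈ tube E := by
  show imPart (z + cpt h 0) ∈ E
  rw [imPart_add, imPart_cpt, add_zero]
  exact hz

theorem norm_cpt_zero {n : ℕ} (h : Fin n → ℝ) : ‖cpt h (0 : Fin n → ℝ)‖ ≤ ‖h‖ := by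
  have := norm_cpt_le h (0 : Fin n → ℝ)
  rwa [norm_zero, add_zero] at this

theorem ball_sub_tube {n : ℕ} {p : Fin n → ℝ} {R R' : ℝ} {z : Fin n → ℂ}
    (hz : z ∈ tube (ball p R')) : ball z (R - R') ⊆ tube (ball p R) := by
  intro w hw
  show imPart w ∈ ball p R
  have h1 : imPart z ∈ ball p R' := hz
  rw [mem_ball] at h1 hw ⊢
  have h2 : dist (imPart w) (imPart z) ≤ dist w z := by
    rw [dist_eq_norm, dist_eq_norm, ← imPart_sub]
    exact norm_imPart_le _
  calc dist (imPart w) p ≤ dist (imPart w) (imPart z) + dist (imPart z) p := dist_triangle _ _ _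
    _ < R := by linarith

/-- uniform continuity with respect to real translations -/
theorem unif_cont {n : ℕ} {f : (Fin n → ℂ) → ℂ} {p : Fin n → ℝ} {R M R' : ℝ} (hRR : R' < R)
    (hf : Hol f p R M) {ε : ℝ} (hε : 0 < ε) : ∃ δ : ℝ, 0 < δ ∧ ∀ z ∈ tube (ball p R'),
      ∀ u : Fin n → ℝ, ‖u‖ < δ → ‖f (z + cpt u 0) - f z‖ ≤ ε := by
  have hC : 0 < 4 * Real.exp M / (R - R') := by
    have := Real.exp_pos M
    have : 0 < R - R' := by linarith
    positivity
  refine ⟨min ((R - R') / 2) (ε / (4 * Real.exp M / (R - R'))), ?_, ?_⟩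
  · apply lt_min
    · linarith
    · positivity
  · intro z hz u hu
    have hu1 : ‖u‖ < (R - R') / 2 := lt_of_lt_of_le hu (min_le_left _ _)
    have hu2 : ‖u‖ < ε / (4 * Real.exp M / (R - R')) := lt_of_lt_of_le hu (min_le_right _ _)
    have hsub := ball_sub_tube (R := R) hz
    have h1 := Pool.Agent.Helper540.lipschitz_half (f := f) (c := z) (R := R - R')
      (M := Real.exp M) (hf.2.1.mono hsub) (fun w hw => hf.2.2 w (hsub hw)) (w := z)
      (z := z + cpt u 0) (mem_ball_self (by linarith)) (by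
        rw [mem_ball, dist_eq_norm, add_sub_cancel_left]
        exact lt_of_le_of_lt (norm_cpt_zero u) hu1)
    rw [add_sub_cancel_left] at h1
    refine h1.trans ?_
    calc 4 * Real.exp M / (R - R') * ‖cpt u 0‖ ≤ 4 * Real.exp M / (R - R') * ‖u‖ :=
          mul_le_mul_of_nonneg_left (norm_cpt_zero u) hC.le
      _ ≤ 4 * Real.exp M / (R - R') * (ε / (4 * Real.exp M / (R - R'))) :=
          mul_le_mul_of_nonneg_left hu2.le hC.le
      _ = ε := by rw [mul_div_assoc', mul_div_cancel_left₀ _ hC.ne']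

theorem cau : S_CAU := by
  intro n f p R M R' hR' hRR hM hf hAP h
  -- translates as bounded continuous functions
  have hcont : ∀ u : Fin n → ℝ, Continuous (fun z : tube (ball p R') => f (z.1 + cpt u 0)) := by
    intro u
    have hc : ContinuousOn f (tube (ball p R)) := hf.2.1.continuousOn
    refine hc.comp_continuous (by fun_prop) ?_
    intro z
    apply cpt_zero_mem
    exact ball_subset_ball hRR.le z.2
  have hbd : ∀ (u : Fin n → ℝ) (z : tube (ball p R')), ‖f (z.1 + cpt u 0)‖ ≤ Real.exp M := by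
    intro u z
    apply hf.2.2
    apply cpt_zero_mem
    exact ball_subset_ball hRR.le z.2
  obtain ⟨F, hF⟩ : ∃ F : (Fin n → ℝ) → BoundedContinuousFunction (tube (ball p R')) ℂ,
      ∀ u z, F u z = f (z.1 + cpt u 0) :=
    ⟨fun u => BoundedContinuousFunction.ofNormedAddCommGroup _ (hcont u) _ (hbd u),
      fun u z => rfl⟩
  have hTB : TotallyBounded (range F) := by
    rw [Metric.totallyBounded_iff]
    intro ε hε
    obtain ⟨l, hl, hAPl⟩ := hAP (ε / 4) (by positivity)
    obtain ⟨δ, hδ, hδ2⟩ := unif_cont hRR hf (show (0 : ℝ) < ε / 4 by positivity)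
    have hcov : TotallyBounded (closedBall (0 : Fin n → ℝ) l) :=
      (isCompact_closedBall _ _).totallyBounded
    rw [Metric.totallyBounded_iff] at hcov
    obtain ⟨t, htf, htc⟩ := hcov δ hδ
    refine ⟨F '' t, htf.image F, ?_⟩
    rintro _ ⟨u, rfl⟩
    obtain ⟨τ, hτ, hτ2⟩ := hAPl (-u)
    have hmem : u + τ ∈ closedBall (0 : Fin n → ℝ) l := by
      rw [mem_closedBall_zero_iff, pi_norm_le_iff_of_nonneg hl.le]
      intro j
      have := hτ j
      rw [Pi.neg_apply, sub_neg_eq_add] at this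
      rw [Pi.add_apply, Real.norm_eq_abs, add_comm]
      exact this.le
    obtain ⟨y, hy⟩ := mem_iUnion.mp (htc hmem)
    obtain ⟨hyt, hy2⟩ := mem_iUnion.mp hy
    refine mem_iUnion.mpr ⟨F y, mem_iUnion.mpr ⟨⟨y, hyt, rfl⟩, ?_⟩⟩
    rw [mem_ball]
    refine lt_of_le_of_lt ?_ (show ε / 2 < ε by linarith)
    rw [BoundedContinuousFunction.dist_le (by positivity)]
    intro z
    rw [hF, hF, dist_eq_norm]
    have hz : z.1 ∈ tube (ball p R') := z.2
    have hzR : z.1 ∈ tube (ball p R) := ball_subset_ball hRR.le z.2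
    have e1 := hτ2 (z.1 + cpt u 0) (cpt_zero_mem hzR u)
    have e2 := hδ2 (z.1 + cpt y 0) (cpt_zero_mem hz y) (u + τ - y) (by
      rw [mem_ball, dist_eq_norm] at hy2
      exact hy2)
    have e3 : z.1 + cpt u 0 + cpt τ 0 = z.1 + cpt y 0 + cpt (u + τ - y) 0 := by
      rw [add_assoc, add_assoc, cpt_add, cpt_add]
      congr 2
      abel
    rw [← e3] at e2
    have e4 : f (z.1 + cpt u 0) - f (z.1 + cpt y 0) =
        -(f (z.1 + cpt u 0 + cpt τ 0) - f (z.1 + cpt u 0)) +
          (f (z.1 + cpt u 0 + cpt τ 0) - f (z.1 + cpt y 0)) := by ring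
    rw [e4]
    refine (norm_add_le _ _).trans ?_
    rw [norm_neg]
    linarith
  have hcomp : IsCompact (closure (range F)) :=
    hTB.closure.isCompact_of_isClosed isClosed_closure
  obtain ⟨a, -, σ, hσ, hlim⟩ := hcomp.tendsto_subseq
    (x := fun k => F (h k)) (fun k => subset_closure (mem_range_self _))
  refine ⟨σ, hσ, ?_⟩
  intro ε hε
  have hC := hlim.cauchySeq
  rw [Metric.cauchySeq_iff] at hC
  obtain ⟨N, hN⟩ := hC ε hε
  refine ⟨N, ?_⟩
  intro k hk l hl z hz
  have h1 := (hN k hk l hl).le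
  have h2 := (BoundedContinuousFunction.dist_le hε.le).mp h1 ⟨z, hz⟩
  rw [Function.comp_apply, Function.comp_apply, hF, hF, dist_eq_norm] at h2
  exact h2

end Pool.Agent.W356.JS
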