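import Pool.Agent.W809.JS.Stm

set_option autoImplicit false

open MeasureTheory Filter Topology Set Metric Real
open Pool.Agent.Results.MP_5c297c_an.NotJessen
open Pool.Agent.W809.JS

namespace Pool.Agent.W356.JS

theorem restrict_closedBall {n : ℕ} (h : Fin n → ℝ) {r : ℝ} (hr : 0 < r) :
    (volume : Measure (Fin n → ℝ)).restrict (closedBall h r) =
      Measure.pi (fun k => (volume : Measure ℝ).restrict (Icc (h k - r) (h k + r))) := by
  have e : closedBall h r = Set.univ.pi (fun k => Icc (h k - r) (h k + r)) := by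
    rw [closedBall_pi _ hr.le]
    congr 1
    ext k
    rw [Real.closedBall_eq_Icc]
  rw [e, volume_pi, Measure.restrict_pi_pi]

theorem fub : S_FUB := by
  classical
  intro n i h r hr F hF
  rw [restrict_closedBall h hr]
  set μ : Fin n → Measure ℝ := fun k => (volume : Measure ℝ).restrict (Icc (h k - r) (h k + r))
    with hμ
  have hG : Measurable (fun x : Fin n → ℝ => ∫⁻ s, F (Function.update x i s) ∂μ i) := by
    have := (hF.lmarginal μ (s := {i}))
    have e : (fun x : Fin n → ℝ => ∫⁻ s, F (Function.update x i s) ∂μ i) =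
        (∫⋯∫⁻_{i}, F ∂μ) := by
      funext x
      rw [lmarginal_singleton]
    rw [e]
    exact this
  have h1 : ∀ G : (Fin n → ℝ) → ENNReal, Measurable G → ∫⁻ x, G x ∂(Measure.pi μ) =
      (∫⋯∫⁻_(Finset.univ.erase i), (fun x => ∫⁻ s, G (Function.update x i s) ∂μ i) ∂μ)
        (fun _ => 0) := by
    intro G hGm
    rw [lintegral_eq_lmarginal_univ (fun _ => 0), lmarginal_erase' G hGm (Finset.mem_univ i)]
  show ∫⁻ x, (∫⁻ s, F (Function.update x i s) ∂μ i) ∂(Measure.pi μ) = _
  rw [h1 _ hG, h1 F hF]
  have h2 : (fun x : Fin n → ℝ => ∫⁻ s, (fun x => ∫⁻ s, F (Function.update x i s) ∂μ i)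
      (Function.update x i s) ∂μ i) =
      fun x => ENNReal.ofReal (2 * r) * ∫⁻ s, F (Function.update x i s) ∂μ i := by
    funext x
    have e1 : ∀ s : ℝ, (fun x : Fin n → ℝ => ∫⁻ s, F (Function.update x i s) ∂μ i)
        (Function.update x i s) = ∫⁻ s, F (Function.update x i s) ∂μ i := by
      intro s
      simp only [Function.update_idem]
    simp only [Function.update_idem]
    rw [lintegral_const, mul_comm]
    congr 1
    rw [hμ]
    simp only [Measure.restrict_apply_univ, Real.volume_Icc]
    congr 1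
    ring
  rw [h2]
  unfold lmarginal
  exact lintegral_const_mul' _ _ ENNReal.ofReal_ne_top

end Pool.Agent.W356.JS
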