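import Pool.Agent.W356.JS.Cau

set_option autoImplicit false

open MeasureTheory Filter Topology Set Metric Real
open Pool.Agent.Results.MP_5c297c_an.NotJessen
open Pool.Agent.W809.JS

namespace Pool.Agent.W356.JS

theorem hull : S_CAU → S_HULL := by
  intro hCAU n f p R M R' hR' hRR hM hf hAP h
  classical
  obtain ⟨σ, hσ, hC⟩ := hCAU n f p R M ((R' + R) / 2) (by linarith) (by linarith) hM hf hAP h
  have hR2 : (R' + R) / 2 ≤ R := by linarith
  have hR3 : R' < (R' + R) / 2 := by linarith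
  have htr : ∀ (u : Fin n → ℝ), ∀ z ∈ tube (ball p R), ‖f (z + cpt u 0)‖ ≤ Real.exp M :=
    fun u z hz => hf.2.2 _ (cpt_zero_mem hz u)
  have hsub2 : tube (ball p ((R' + R) / 2)) ⊆ tube (ball p R) := fun z hz =>
    ball_subset_ball hR2 hz
  have hsub1 : tube (ball p R') ⊆ tube (ball p ((R' + R) / 2)) := fun z hz =>
    ball_subset_ball hR3.le hz
  -- pointwise limits
  have hex : ∀ z : Fin n → ℂ, ∃ w : ℂ, z ∈ tube (ball p ((R' + R) / 2)) →
      Tendsto (fun k => f (z + cpt (h (σ k)) 0)) atTop (𝓝 w) := by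
    intro z
    by_cases hz : z ∈ tube (ball p ((R' + R) / 2))
    · have hcs : CauchySeq (fun k => f (z + cpt (h (σ k)) 0)) := by
        rw [Metric.cauchySeq_iff]
        intro ε hε
        obtain ⟨N, hN⟩ := hC (ε / 2) (by positivity)
        refine ⟨N, fun k hk l hl => ?_⟩
        rw [dist_eq_norm]
        exact lt_of_le_of_lt (hN k hk l hl z hz) (by linarith)
      obtain ⟨w, hw⟩ := cauchySeq_tendsto_of_complete hcs
      exact ⟨w, fun _ => hw⟩
    · exact ⟨0, fun h => absurd h hz⟩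
  choose g₀ hg₀ using hex
  have hunif : ∀ ε : ℝ, 0 < ε → ∃ N : ℕ, ∀ k ≥ N, ∀ z ∈ tube (ball p ((R' + R) / 2)),
      ‖f (z + cpt (h (σ k)) 0) - g₀ z‖ ≤ ε := by
    intro ε hε
    obtain ⟨N, hN⟩ := hC ε hε
    refine ⟨N, fun k hk z hz => ?_⟩
    have h1 : Tendsto (fun l => ‖f (z + cpt (h (σ k)) 0) - f (z + cpt (h (σ l)) 0)‖) atTop
        (𝓝 ‖f (z + cpt (h (σ k)) 0) - g₀ z‖) := ((hg₀ z hz).const_sub _).norm
    refine le_of_tendsto h1 ?_
    filter_upwards [eventually_ge_atTop N] with l hl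
    exact hN k hk l hl z hz
  have hd : ∀ u : Fin n → ℝ, DifferentiableOn ℂ (fun z => f (z + cpt u 0)) (tube (ball p R)) := by
    intro u
    refine hf.2.1.comp (by fun_prop) ?_
    intro z hz
    exact cpt_zero_mem hz u
  have hg₀d : DifferentiableOn ℂ g₀ (tube (ball p R')) := by
    intro z hz
    have hsubz : ball z ((R' + R) / 2 - R') ⊆ tube (ball p ((R' + R) / 2)) := ball_sub_tube hz
    have hlim : TendstoUniformlyOn (fun k z => f (z + cpt (h (σ k)) 0)) g₀ atTop
        (ball z ((R' + R) / 2 - R')) := by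
      rw [Metric.tendstoUniformlyOn_iff]
      intro ε hε
      obtain ⟨N, hN⟩ := hunif (ε / 2) (by positivity)
      filter_upwards [eventually_ge_atTop N] with k hk w hw
      rw [dist_comm, dist_eq_norm]
      exact lt_of_le_of_lt (hN k hk w (hsubz hw)) (by linarith)
    have h1 := Pool.Agent.Helper540.differentiableOn_of_uniform_limit
      (fun k => (hd (h (σ k))).mono (hsubz.trans hsub2)) hlim
    have h2 : DifferentiableAt ℂ g₀ z :=
      h1.differentiableAt (ball_mem_nhds z (by linarith))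
    exact h2.differentiableWithinAt
  refine ⟨σ, fun z => if z ∈ tube (ball p R') then g₀ z else 0, hσ, ⟨?_, ?_, ?_⟩, ?_⟩
  · have hopen : IsOpen (tube (ball p R')) := isOpen_tube isOpen_ball
    have h1 : ContinuousOn g₀ (tube (ball p R')) := hg₀d.continuousOn
    have h2 := ContinuousOn.measurable_piecewise (f := g₀) (g := fun _ : Fin n → ℂ => (0 : ℂ))
      (s := tube (ball p R')) h1 continuousOn_const hopen.measurableSet
    exact h2
  · refine hg₀d.congr ?_
    intro z hz
    simp only [hz, if_true]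
  · intro z hz
    simp only [hz, if_true]
    have h1 : Tendsto (fun k => ‖f (z + cpt (h (σ k)) 0)‖) atTop (𝓝 ‖g₀ z‖) :=
      (hg₀ z (hsub1 hz)).norm
    refine le_of_tendsto h1 (Eventually.of_forall fun k => ?_)
    exact htr _ z (hsub2 (hsub1 hz))
  · intro ε hε
    obtain ⟨N, hN⟩ := hunif ε hε
    refine ⟨N, fun k hk z hz => ?_⟩
    simp only [hz, if_true]
    exact hN k hk z (hsub1 hz)

end Pool.Agent.W356.JS
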